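import Pool.Agent.Q182.GE.LFA
import Pool.Agent.Q96.GE.TGT

/-! # Project GE (helper284), job LFB: one prescribed trace -/

set_option autoImplicit false

namespace Pool.Agent.Q198.GE

open Finset Polynomial ComplexConjugate Pool.Agent.Q284.GE Pool.Agent.Q182.GE Pool.Agent.Q96.GE

/-- Newton's identities. -/
theorem newt {D : ℕ} (ζ : Fin D → ℂ) {b : ℂ[X]} (hb : b = ∏ j, (1 - C (ζ j) * X)) {n : ℕ} (hn : 1 ≤ n) :
    (n : ℂ) * b.coeff n = ∑ m ∈ Icc 1 n, (- ∑ j, ζ j ^ m) * b.coeff (n - m) := by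
  have h1 := newt_series D ζ
  rw [← hb] at h1
  have h2 := congrArg (PowerSeries.coeff n) h1
  obtain ⟨k, rfl⟩ : ∃ k, n = k + 1 := ⟨n - 1, by omega⟩
  rw [mul_comm PowerSeries.X, PowerSeries.coeff_succ_mul_X, PowerSeries.coeff_derivative,
    Polynomial.coeff_coe, PowerSeries.coeff_mul] at h2
  have h3 : ∑ p ∈ antidiagonal (k + 1), (PowerSeries.coeff p.1) (ser (fun m => - ∑ j, ζ j ^ m)) *
      (PowerSeries.coeff p.2) (b : PowerSeries ℂ) =
      ∑ m ∈ Icc 1 (k + 1), (- ∑ j, ζ j ^ m) * b.coeff (k + 1 - m) := by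
    have hI : Icc 1 (k + 1) = Ico 1 (k + 2) := by
      ext x
      simp only [mem_Icc, mem_Ico]
      omega
    rw [Finset.Nat.sum_antidiagonal_eq_sum_range_succ_mk, Finset.sum_range_succ', hI,
      Finset.sum_Ico_eq_sum_range]
    have h0 : (PowerSeries.coeff 0) (ser (fun m => - ∑ j, ζ j ^ m)) = 0 := by
      simp [ser]
    rw [h0, zero_mul, add_zero]
    refine Finset.sum_congr (by simp) fun i _ => ?_
    rw [Polynomial.coeff_coe, add_comm 1 i]
    simp [ser]
  rw [h3] at h2
  rw [← h2]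
  push_cast
  ring

theorem t_LFB (hcir : S_CIR) (htgt : S_TGT) : S_LFB := by
  classical
  intro n hn x hx
  obtain ⟨A, hA⟩ : ∃ A : ℂ[X], A = 1 - C ((x : ℝ) : ℂ) * X := ⟨_, rfl⟩
  have hA0 : A.coeff 0 = 1 := by
    rw [hA]
    simp
  have hA1 : A.coeff 1 = -((x : ℝ) : ℂ) := by
    rw [hA]
    simp [coeff_one]
  have hA2 : ∀ m : ℕ, 2 ≤ m → A.coeff m = 0 := by
    intro m hm
    obtain ⟨k, rfl⟩ : ∃ k, m = k + 1 := ⟨m - 1, by omega⟩
    rw [hA, coeff_sub, coeff_one, if_neg (by omega), coeff_C_mul, coeff_X, if_neg (by omega), mul_zero, sub_zero]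
  have hAn : ∀ m : ℕ, n ≤ 2 * m → A.coeff m = 0 := fun m hm => hA2 m (by omega)
  have hAz : ∀ z : ℂ, ‖z‖ ≤ 1 → A.eval z ≠ 0 := by
    intro z hz h0
    rw [hA, eval_sub, eval_one, eval_mul, eval_C, eval_X] at h0
    have h1 : ((x : ℝ) : ℂ) * z = 1 := (sub_eq_zero.1 h0).symm
    have h2 : ‖((x : ℝ) : ℂ) * z‖ ≤ 1 / 2 := by
      rw [norm_mul, Complex.norm_real, Real.norm_eq_abs]
      calc |x| * ‖z‖ ≤ 1 / 2 * 1 := mul_le_mul hx hz (norm_nonneg _) (by norm_num)
        _ = 1 / 2 := mul_one _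
    rw [h1, norm_one] at h2
    norm_num at h2
  have hε : ‖((-1 : ℂ)) ^ n‖ = 1 := by rw [norm_pow, norm_neg, norm_one, one_pow]
  obtain ⟨b, hb, hb1, hb2⟩ := hcir n ((-1) ^ n) A (by omega) hε hA0 hAn hAz
  obtain ⟨⟨α, hα, hbα⟩, -⟩ := htgt n ((-1) ^ n) b hb
  have hbc : ∀ k, b.coeff k = (-1) ^ k * esym α k := fun k => by rw [hbα, coeff_prod]
  have hsq1 : ∀ k : ℕ, ((-1 : ℂ) ^ k) * (-1) ^ k = 1 := by
    intro k
    rw [← mul_pow, neg_one_mul, neg_neg, one_pow]
  have hec : ∀ k, esym α k = (-1) ^ k * b.coeff k := by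
    intro k
    rw [hbc, ← mul_assoc, hsq1, one_mul]
  have hconjε : conj (((-1 : ℂ)) ^ n) = (-1) ^ n := by
    rw [map_pow, map_neg, map_one]
  have hAr : ∀ k, conj (A.coeff k) = A.coeff k := by
    intro k
    rcases Nat.lt_or_ge k 2 with h | h
    · interval_cases k
      · rw [hA0, map_one]
      · rw [hA1, map_neg, Complex.conj_ofReal]
    · rw [hA2 k h, map_zero]
  have hreal : ∀ k, conj (b.coeff k) = b.coeff k := by
    have h1 : ∀ k, 2 * k ≤ n → conj (b.coeff k) = b.coeff k := by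
      intro k hk
      rcases hk.eq_or_lt with h | h
      · rw [hb2 k h, map_zero]
      · rw [hb1 k h, hAr]
    intro k
    by_cases hk : 2 * k ≤ n
    · exact h1 k hk
    · by_cases hkn : k ≤ n
      · have h2 := hb.fe (n - k) (by omega)
        have h3 : n - (n - k) = k := by omega
        rw [h3] at h2
        rw [h2, map_mul, hconjε, h1 (n - k) (by omega), h1 (n - k) (by omega)]
      · have : b.coeff k = 0 := coeff_eq_zero_of_natDegree_lt (by rw [hb.deg]; omega)
        rw [this, map_zero]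
  have hesr : ∀ k, conj (esym α k) = esym α k := by
    intro k
    rw [hec, map_mul, hreal, map_pow, map_neg, map_one]
  have hesr2 : ∀ k, esym (fun j => conj (α j)) k = esym α k := fun k => by rw [← esym_conj, hesr]
  -- the middle coefficients vanish
  have hmid : ∀ k, 2 ≤ k → k ≤ n - 2 → b.coeff k = 0 := by
    intro k hk hkn
    by_cases h : 2 * k ≤ n
    · rcases h.eq_or_lt with h1 | h1
      · exact hb2 k h1
      · rw [hb1 k h1, hA2 k hk]
    · have h2 := hb.fe (n - k) (by omega)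
      have h3 : n - (n - k) = k := by omega
      rw [h3] at h2
      rw [h2, hb1 (n - k) (by omega), hA2 (n - k) (by omega), map_zero, mul_zero]
  have hb0 : b.coeff 0 = 1 := hb.zero
  have hb1' : b.coeff 1 = -((x : ℝ) : ℂ) := by rw [hb1 1 (by omega), hA1]
  refine ⟨α, hα, ?_, ?_, ?_, ?_⟩
  · have h1 : esym α n = ∏ j, α j := by
      unfold esym
      have : powersetCard n (univ : Finset (Fin n)) = {univ} := by
        have h2 := Finset.powersetCard_self (univ : Finset (Fin n))
        rwa [card_univ, Fintype.card_fin] at h2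
      rw [this, Finset.sum_singleton]
    have h2 := hb.fe 0 (Nat.zero_le _)
    rw [Nat.sub_zero, hb.zero, map_one, mul_one] at h2
    rw [← h1, hec, h2, hsq1]
  · intro w
    have h1 : ∀ β : Fin n → ℂ, ∏ j, (1 - β j * w) = (∏ j, (1 - C (β j) * X)).eval w := by
      intro β
      rw [eval_prod]
      apply Finset.prod_congr rfl
      intro j _
      simp
    rw [h1 (fun j => conj (α j)), h1 α]
    congr 1
    ext k
    rw [coeff_prod, coeff_prod, hesr2]
  · intro k hk hkn
    induction k, hk using Nat.le_induction with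
    | base =>
      have h1 := newt α hbα (le_refl 1)
      rw [Icc_self, sum_singleton, Nat.sub_self, hb0, hb1', Nat.cast_one, one_mul, mul_one] at h1
      have h2 := neg_injective h1
      rw [pow_one]
      exact h2.symm
    | succ k hk ih =>
      have h0 := ih (by omega)
      have h1 := newt α hbα (show 1 ≤ k + 1 by omega)
      rw [hmid (k + 1) (by omega) hkn, mul_zero] at h1
      obtain ⟨t, rfl⟩ : ∃ t, k = t + 1 := ⟨k - 1, by omega⟩
      have hI : Icc 1 (t + 1 + 1) = insert (t + 1 + 1) (insert (t + 1) (Icc 1 t)) := by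
        ext m
        simp only [mem_Icc, mem_insert]
        omega
      rw [hI, sum_insert (by simp), sum_insert (by simp)] at h1
      have h2 : ∑ m ∈ Icc 1 t, (- ∑ j, α j ^ m) * b.coeff (t + 1 + 1 - m) = 0 := by
        refine sum_eq_zero (fun m hm => ?_)
        rw [mem_Icc] at hm
        rw [hmid (t + 1 + 1 - m) (by omega) (by omega), mul_zero]
      rw [h2, add_zero, Nat.sub_self, hb0, show t + 1 + 1 - (t + 1) = 1 by omega, hb1', h0] at h1
      have h3 : ∑ j, α j ^ (t + 1 + 1) = ((x ^ (t + 1) : ℝ) : ℂ) * ((x : ℝ) : ℂ) := by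
        linear_combination h1
      rw [h3]
      push_cast
      ring
  · intro k
    rw [← Complex.conj_eq_iff_im, map_sum]
    have h1 := multiset_of_esym (α := fun j => conj (α j)) (β := α) hesr2
    have h2 := congrArg (fun s : Multiset ℂ => (s.map (fun z : ℂ => z ^ k)).sum) h1
    simp only [Multiset.map_map] at h2
    have h3 : ∀ f : Fin n → ℂ, (Multiset.map f (univ : Finset (Fin n)).val).sum = ∑ j, f j := fun f => rfl
    simp only [h3, Function.comp_apply] at h2
    rw [← h2]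
    refine sum_congr rfl (fun j _ => ?_)
    rw [map_pow]

end Pool.Agent.Q198.GE
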